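import Pool.Agent.H90.HW.Stmts2

/-!
Membership in the ideal over `ℚ` and points over fields of large characteristic.
-/

namespace Pool.Agent.H90.HW

open MvPolynomial

/-- A polynomial over `ℚ` has a positive integer multiple with integer coefficients. -/
theorem inc_den {n : ℕ} (h : MvPolynomial (Fin n) ℚ) :
    ∃ (N : ℕ) (h' : MvPolynomial (Fin n) ℤ), 0 < N ∧
      MvPolynomial.map (Int.castRingHom ℚ) h' = (N : MvPolynomial (Fin n) ℚ) * h := by
  induction h using MvPolynomial.induction_on' with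
  | monomial u a =>
    refine ⟨a.den, monomial u a.num, a.den_pos, ?_⟩
    rw [MvPolynomial.map_monomial]
    have : (a.den : MvPolynomial (Fin n) ℚ) = C (a.den : ℚ) := by simp
    rw [this, MvPolynomial.C_mul_monomial]
    congr 1
    rw [mul_comm]
    simp [Rat.mul_den_eq_num]
  | add p q hp hq =>
    obtain ⟨N, p', hN, hp'⟩ := hp
    obtain ⟨M, q', hM, hq'⟩ := hq
    refine ⟨N * M, (M : MvPolynomial (Fin n) ℤ) * p' + (N : MvPolynomial (Fin n) ℤ) * q',
      Nat.mul_pos hN hM, ?_⟩
    rw [map_add, map_mul, map_mul, hp', hq']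
    push_cast
    simp only [map_natCast]
    ring

/-- Elements of the ideal have integer multiples in the ideal generated over `ℤ`. -/
theorem inc_mem {n : ℕ} (F : Finset (MvPolynomial (Fin n) ℤ)) (h : MvPolynomial (Fin n) ℚ)
    (hh : h ∈ idealQ F) :
    ∃ (N : ℕ) (h' : MvPolynomial (Fin n) ℤ), 0 < N ∧
      h' ∈ Ideal.span (F : Set (MvPolynomial (Fin n) ℤ)) ∧
      MvPolynomial.map (Int.castRingHom ℚ) h' = (N : MvPolynomial (Fin n) ℚ) * h := by
  unfold idealQ at hh
  induction hh using Submodule.span_induction with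
  | mem x hx =>
    obtain ⟨y, hy, rfl⟩ := hx
    exact ⟨1, y, one_pos, Ideal.subset_span hy, by simp⟩
  | zero => exact ⟨1, 0, one_pos, Ideal.zero_mem _, by simp⟩
  | add x y _ _ hx hy =>
    obtain ⟨N, p', hN, hpm, hp'⟩ := hx
    obtain ⟨M, q', hM, hqm, hq'⟩ := hy
    refine ⟨N * M, (M : MvPolynomial (Fin n) ℤ) * p' + (N : MvPolynomial (Fin n) ℤ) * q',
      Nat.mul_pos hN hM, Ideal.add_mem _ (Ideal.mul_mem_left _ _ hpm)
        (Ideal.mul_mem_left _ _ hqm), ?_⟩
    rw [map_add, map_mul, map_mul, hp', hq']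
    push_cast
    simp only [map_natCast]
    ring
  | smul a x _ hx =>
    obtain ⟨N, p', hN, hpm, hp'⟩ := hx
    obtain ⟨M, a', hM, ha'⟩ := inc_den a
    refine ⟨M * N, a' * p', Nat.mul_pos hM hN, Ideal.mul_mem_left _ _ hpm, ?_⟩
    rw [map_mul, hp', ha', smul_eq_mul]
    push_cast
    ring

theorem inc : SInc := by
  intro n F f hf
  obtain ⟨N, h', hN, hm, hh'⟩ := inc_mem F _ hf
  have hinj : Function.Injective (MvPolynomial.map (σ := Fin n) (Int.castRingHom ℚ)) :=
    MvPolynomial.map_injective _ Int.cast_injective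
  have heq : h' = (N : MvPolynomial (Fin n) ℤ) * f := by
    apply hinj
    rw [hh', map_mul, map_natCast]
  refine ⟨N, hN, fun K _ x hK hx => ?_⟩
  have hker : h' ∈ RingHom.ker (aeval (R := ℤ) x).toRingHom := by
    have hle : Ideal.span (F : Set (MvPolynomial (Fin n) ℤ)) ≤
        RingHom.ker (aeval (R := ℤ) x).toRingHom := by
      rw [Ideal.span_le]
      intro g hg
      exact hx g hg
    exact hle hm
  have h0 : aeval x h' = 0 := hker
  rw [heq, map_mul, map_natCast] at h0
  exact (mul_eq_zero.1 h0).resolve_left hK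

end Pool.Agent.H90.HW
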