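import Pool.Agent.H90.HW.Stmts2

/-!
Noether normalization and Krull dimension.
-/

namespace Pool.Agent.H90.HW

open MvPolynomial

theorem noether : SNoether := by
  intro A _ _ _ s d g hinj hint hdim
  let _ : Algebra (MvPolynomial (Fin s) ℚ) A := g.toRingHom.toAlgebra
  have : Algebra.IsIntegral (MvPolynomial (Fin s) ℚ) A := ⟨fun x => hint x⟩
  have halg : algebraMap (MvPolynomial (Fin s) ℚ) A = g.toRingHom := rfl
  have hs : ((s : ℕ) : WithBot ℕ∞) ≤ ringKrullDim (MvPolynomial (Fin s) ℚ) := by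
    rw [MvPolynomial.ringKrullDim_of_isNoetherianRing]
    have h0 : (0 : WithBot ℕ∞) ≤ ringKrullDim ℚ := ringKrullDim_nonneg_of_nontrivial
    rw [Nat.card_eq_fintype_card, Fintype.card_fin]
    exact le_add_of_nonneg_left h0
  obtain ⟨l, hl⟩ := Order.le_krullDim_iff.1 hs
  obtain ⟨P, -, hP, hPl⟩ := Ideal.exists_ideal_over_prime_of_isIntegral (S := A)
    l.head.asIdeal (⊥ : Ideal A) (by
      rw [halg, ← RingHom.ker_eq_comap_bot,
        (RingHom.injective_iff_ker_eq_bot g.toRingHom).1 hinj]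
      exact bot_le)
  have := hP
  have : P.LiesOver (RelSeries.head l).asIdeal := ⟨hPl.symm⟩
  obtain ⟨L, hL, -, -⟩ := Ideal.exists_ltSeries_of_hasGoingUp (S := A) l P
  have h1 : ((s : ℕ) : WithBot ℕ∞) ≤ ringKrullDim A :=
    Order.le_krullDim_iff.2 ⟨L, by rw [hL, hl]⟩
  exact_mod_cast h1.trans hdim

end Pool.Agent.H90.HW
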